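import Pool.Agent.H482Z.BCM.Final

set_option autoImplicit false

namespace Pool.Agent.Results.MP_8741c9_al.ANoDescent

open Pool.Agent.H482Z.BCM IsLocalRing

/-- There is a two-dimensional Cohen-Macaulay local domain `R` whose completion has bounded
CM type while `R` has not; the map from `R` to its completion is a flat local homomorphism of
Noetherian local rings whose closed fibre is a field. -/
theorem result :
    ∃ (R : Type) (_ : CommRing R) (_ : IsDomain R) (_ : IsNoetherianRing R) (_ : IsLocalRing R),
      ringKrullDim R = 2 ∧ IsMCM R R ∧
      IsNoetherianRing (AdicCompletion (maximalIdeal R) R) ∧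
      Module.Flat R (AdicCompletion (maximalIdeal R) R) ∧
      IsLocalHom (algebraMap R (AdicCompletion (maximalIdeal R) R)) ∧
      IsField (AdicCompletion (maximalIdeal R) R ⧸
        (maximalIdeal R).map (algebraMap R (AdicCompletion (maximalIdeal R) R))) ∧
      BoundedCMType (AdicCompletion (maximalIdeal R) R) ∧ ¬ BoundedCMType R := by
  obtain ⟨R, _, _, _, _, h1, h2, h3, h4, h5⟩ := main ℂ
  refine ⟨R, inferInstance, inferInstance, inferInstance, inferInstance, h1, h2, h3,
    inferInstance, inferInstance, ?_, h4, h5⟩
  rw [← AdicCompletion.maximalIdeal_eq_map]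
  exact Field.toIsField (ResidueField _)

end Pool.Agent.Results.MP_8741c9_al.ANoDescent
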